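import Pool.Agent.P.MP_900c80_co.Main

set_option autoImplicit false

namespace Pool.Agent.Results.MP_900c80_co.Q34Infinite

/-- The misere quotient of Dawson's Kayles at heap size 34 is infinite. -/
theorem result : Infinite (Quotient (Pool.Agent.P.MP_900c80_co.indist 34)) :=
  Pool.Agent.P.MP_900c80_co.infinite_quotient

end Pool.Agent.Results.MP_900c80_co.Q34Infinite
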